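import Pool.Agent.helper1.FI.SpecQ2
import Pool.Agent.helper59.FI.Base

/-!
# Row fib:QHT (MP_baa4d7_al): heights, for the idempotent `i`
-/

set_option autoImplicit false

namespace Pool.Agent.FI

open Pool.Agent.helper58.DC Pool.Agent.DI Pool.Agent.GR Pool.Agent.OB

theorem QHT (hHTI : HTI_stmt) : QHT_stmt := by
  intro p M hS G _ _ D x θ χ hR P hP i hi φ hφ
  have h1 : cz D ≤ cz P := cz_mono hP
  have h2 : Inv (cz D) i := fun s hs y => hi.inv s (Subgroup.mem_inf.2 ⟨cz_le_TT hs, h1 hs⟩) y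
  exact hHTI p M hS G D x θ χ hR (cz P) h1 i hi.idm h2 hi.left hi.cen φ hφ

end Pool.Agent.FI
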